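import Pool.Agent.Run7.h667.TC.Fin

/-!
# MP_f981b0_an: hyperinvariant subspaces of typical contractions of the reflexive spaces `ℓ_p(Y)`

Let `X` be a separable reflexive complex Banach space with the metric approximation property which
is isometric to `ℓ_p(Y)` for some normed space `Y`, where `1 < p < ∞`. (Examples are `ℓ_p(Y)` for
every separable reflexive `Y` with the metric approximation property, and `L_p[0, 1]`.) For the
strong* operator topology the contractions of `X` form a Polish space. A typical contraction of `X`
has nontrivial closed hyperinvariant subspaces, and these even come arbitrarily close to every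
vector.

Proof. For vectors `x` and functionals `y` let `ρ(T; x, y)` be the norm of the functional
`S ↦ y (S x)` on the commutant of `T`. By the weak operator compactness of the unit ball it is upper
semicontinuous in `T` (with respect to the strong* topology, at *all* contractions). By the
approximation property the operators `A` of finite rank with `‖A‖ < 1`, `P A = A = A P` for a
projection `P` on the first coordinates of `ℓ_p(Y)`, and with simple spectrum in the sense that a
polynomial with simple roots annihilates `A`, are dense. By the Hahn-Banach theorem and weak
compactness there are vectors `u_i` and functionals `v_i` with `y (S x) ≈ ∑ i, v_i (S u_i)` for all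
contractions `S` in the commutant of `A`, and `∑ i, ‖u_i‖ ^ p ≤ ρ`, `∑ i, ‖v_i‖ ^ q ≤ ρ`. Put copies
of `A` on far away copies of the range of `P`, couple them by a shift `J` with weights `δ` (small)
for all steps but the last one, which has weight `w` (fixed); add `u_i` to `x` and `-v_i` to `y` on
the `i`-th copy. In the new operator `A ⊗ 1 + 1 ⊗ J` the parts `A ⊗ 1` and `1 ⊗ J` are polynomials
of the whole, because `J` is nilpotent and `A` is annihilated by a polynomial with simple roots. So
the blocks of the operators in its commutant commute with `A` and form a Toeplitz matrix whose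
entries off the diagonal have norm at most `δ / w`. Hence `ρ` is almost `0` for the new operator
and the new pair. A Baire category argument gives for typical `T` a pair `x`, `y` with `y ≠ 0`, `x`
close to a given vector, and `y (S x) = 0` for all `S` in the commutant of `T`.
-/

set_option autoImplicit false
open TopologicalSpace
open scoped ENNReal

namespace Pool.Agent.Results.MP_f981b0_an.TypicalContractionsVectorValued

variable (X : Type) [NormedAddCommGroup X] [NormedSpace ℂ X]

/-- `X` is reflexive: the canonical map to the second dual is surjective. -/
def IsReflexive : Prop := Function.Surjective (NormedSpace.inclusionInDoubleDual ℂ X)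

/-- The metric approximation property: the identity can be approximated at finitely many vectors by
operators of finite rank and norm at most `1`. -/
def MetricApprox : Prop :=
  ∀ (s : Finset X) (ε : ℝ), 0 < ε → ∃ R : X →L[ℂ] X,
    FiniteDimensional ℂ (LinearMap.range (R : X →ₗ[ℂ] X)) ∧ ‖R‖ ≤ 1 ∧ ∀ x ∈ s, ‖R x - x‖ ≤ ε

/-- All contractions: the closed unit ball of the bounded operators. -/
def Contr : Set (X →L[ℂ] X) := {T | ‖T‖ ≤ 1}

/-- The strong* operator topology: pointwise convergence of the operators and of their adjoints. -/
@[reducible] noncomputable def SOTStar : TopologicalSpace (Contr X) :=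
  TopologicalSpace.induced (fun T : Contr X => ((fun x : X => (T : X →L[ℂ] X) x),
    (fun y : StrongDual ℂ X => y.comp (T : X →L[ℂ] X)))) instTopologicalSpaceProd

variable {X}

/-- Arbitrarily close to every vector there is a vector which lies in a closed subspace, neither
`{0}` nor the whole space, which is invariant under all bounded operators commuting with `T`. -/
def DenselyHyperinvariant (T : X →L[ℂ] X) : Prop :=
  ∀ (x₀ : X) (ε : ℝ), 0 < ε → ∃ M : Submodule ℂ X, IsClosed (M : Set X) ∧ M ≠ ⊥ ∧ M ≠ ⊤ ∧
    (∀ S : X →L[ℂ] X, S * T = T * S → ∀ v ∈ M, S v ∈ M) ∧ ∃ x ∈ M, ‖x - x₀‖ < ε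

/-- **Typical contractions of the separable reflexive spaces `ℓ_p(Y)`, `1 < p < ∞`, with the metric
approximation property have nontrivial closed hyperinvariant subspaces**, for the strong* operator
topology. The space of contractions is completely metrizable. -/
theorem result [CompleteSpace X] [SeparableSpace X] [Nontrivial X] (hX : IsReflexive X)
    (hA : MetricApprox X) (p : ℝ≥0∞) [Fact (1 ≤ p)] (hp1 : 1 < p) (hp : p ≠ ∞)
    (Y : Type) [NormedAddCommGroup Y] [NormedSpace ℂ Y] (e : X ≃ₗᵢ[ℂ] lp (fun _ : ℕ => Y) p) :
    (Contr X).Nonempty ∧ @IsCompletelyMetrizableSpace _ (SOTStar X) ∧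
      @BaireSpace _ (SOTStar X) ∧
      {T : Contr X | DenselyHyperinvariant (T : X →L[ℂ] X)} ∈ @residual _ (SOTStar X) :=
  Run7.h667.TC.typ_lpY hX hA p hp1 hp e (Contr X) rfl (SOTStar X) rfl

end Pool.Agent.Results.MP_f981b0_an.TypicalContractionsVectorValued
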