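import Pool.Agent.Run7.h667.PC.Fin

/-!
# MP_f981b0_an: typical positive contractions and typical regular contractions of `ℓ_p`

Let `1 < p < ∞`. For the strong and for the strong* operator topology the positive contractions of
`ℓ_p` form a Polish space, and a typical positive contraction has nontrivial closed hyperinvariant
subspaces, arbitrarily close to every vector. The same holds for the contractively regular operators
(those whose matrix of absolute values is a contraction), for those with real entries, and generally
for those with entries in a closed convex cone of complex numbers which contains `[0, ∞)`.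

Proof. For vectors `x` and functionals `y` let `ρ(T; x, y)` be the norm of the functional
`S ↦ y (S x)` on the commutant of `T`. It is upper semicontinuous for the strong* topology. The
finite matrices `A` in the class with simple spectrum whose matrix of absolute values has norm `< 1`
are dense (add a small multiple of `diag(0, 1, …, N - 1)`). By the Hahn-Banach theorem the functional
is of the form `∑ i, v_i (S u_i)`, up to a small error, with `∑ i, ‖u_i‖ ^ p ≤ ρ`,
`∑ i, ‖v_i‖ ^ q ≤ ρ`. The operator `A ⊗ 1 + 1 ⊗ J` on many far away copies of the block, with a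
weighted shift `J ≥ 0`, is again in the class; its commutant commutes with `A ⊗ 1` and `1 ⊗ J`, which
makes `ρ` almost `0` for the pair moved by the `u_i`, `v_i`. A Baire category argument follows. For
the strong topology one shows that the identity from the strong to the strong* topology is
continuous at a strong* dense set of operators of the class: if `v ≥ 0` is a norming vector of
`|T|`, and `(|T| v)_i > 0`, then a far away column of `|T'|`, for `T'` near `T`, cannot have a large
entry in the row `i`, because `‖v + t e_k‖ ^ p = 1 + t ^ p` while `‖|T'| (v + t e_k)‖ ^ p` grows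
linearly in `t`.
-/

set_option autoImplicit false
open Finset TopologicalSpace Pool.Agent.Y280
open scoped ENNReal ComplexOrder

namespace Pool.Agent.Results.MP_f981b0_an.TypicalPositiveContractions

variable {E : Type} [NormedAddCommGroup E] [NormedSpace ℂ E]

/-- The positive contractions, in coordinates. -/
def Pos (c : E →ₗ[ℂ] (ℕ → ℂ)) : Set (E →L[ℂ] E) :=
  {T | ‖T‖ ≤ 1 ∧ ∀ x, (∀ i, 0 ≤ c x i) → ∀ i, 0 ≤ c (T x) i}

/-- A closed convex cone of complex numbers which contains `[0, ∞)`. -/
structure IsCone (S : Set ℂ) : Prop where
  closed : IsClosed S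
  add : ∀ z ∈ S, ∀ z' ∈ S, z + z' ∈ S
  smul : ∀ r : ℝ, 0 ≤ r → ∀ z ∈ S, (r : ℂ) * z ∈ S
  one : (1 : ℂ) ∈ S

/-- The contractively regular operators with entries in `S`: the matrix of the absolute values of
the entries `c (T (b j)) i` is a contraction of `ℓ_p`, that is, all its finite sections are; here
`b` is the sequence of the basis vectors. -/
def Reg (p : ℝ) (c : E →ₗ[ℂ] (ℕ → ℂ)) (b : ℕ → E) (S : Set ℂ) : Set (E →L[ℂ] E) :=
  {T | (∀ (N : ℕ) (x : ℕ → ℝ), (∀ j, 0 ≤ x j) →
      ∑ i ∈ range N, (∑ j ∈ range N, ‖c (T (b j)) i‖ * x j) ^ p ≤ ∑ j ∈ range N, x j ^ p) ∧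
      ∀ i j, c (T (b j)) i ∈ S}

/-- Arbitrarily close to every vector there is a vector which lies in a closed subspace, neither
`{0}` nor the whole space, which is invariant under all bounded operators commuting with `T`. -/
def DenselyHyperinvariant (T : E →L[ℂ] E) : Prop :=
  ∀ (x₀ : E) (ε : ℝ), 0 < ε → ∃ M : Submodule ℂ E, IsClosed (M : Set E) ∧ M ≠ ⊥ ∧ M ≠ ⊤ ∧
    (∀ S : E →L[ℂ] E, S * T = T * S → ∀ v ∈ M, S v ∈ M) ∧ ∃ x ∈ M, ‖x - x₀‖ < ε

/-- **Typical positive contractions of `ℓ_p`, and typical contractively regular operators of `ℓ_p`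
with entries in a cone, have nontrivial closed hyperinvariant subspaces**, for `1 < p < ∞`, for the
strong and for the strong* operator topology. Here `c` identifies `E` with `ℓ_p`, and `b` is the
sequence of the basis vectors. -/
theorem result (p : ℝ) (hp : 1 < p) (c : E →ₗ[ℂ] (ℕ → ℂ)) (hc : IsEllp p c) (b : ℕ → E)
    (hb : ∀ i j, c (b j) i = if i = j then 1 else 0) (C : Set (E →L[ℂ] E))
    (hC : C = Pos c ∨ ∃ S : Set ℂ, IsCone S ∧ C = Reg p c b S)
    (t : TopologicalSpace C) (ht : t = SOTStar C ∨ t = SOT C) :
    C.Nonempty ∧ @IsCompletelyMetrizableSpace _ t ∧ @BaireSpace _ t ∧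
      {T : C | DenselyHyperinvariant (T : E →L[ℂ] E)} ∈ @residual _ t := by
  refine Run7.h667.PC.typ_coord p hp c hc b hb C ?_ t ht
  rcases hC with h | ⟨S, hS, h⟩
  · exact Or.inl h
  · exact Or.inr ⟨S, ⟨hS.closed, hS.add, hS.smul, hS.one⟩, h⟩

end Pool.Agent.Results.MP_f981b0_an.TypicalPositiveContractions
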