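import Pool.Agent.Run7.h667.NG.Fin

/-!
# MP_f981b0_an: hyperinvariant subspaces of typical positive operators with prescribed power growth

Let `X` be a separable reflexive complex Banach space which is identified, by an isometry `e`, with
`L_p([0, 1]; Y)` for some Banach space `Y`, where `1 < p < ∞`, and let `C` be a closed convex cone
in `Y`, different from `{0}` and `Y`. Let `w 1, w 2, …` be *any* positive numbers, and let
`ConeGrowth` be the set of the operators `T` with `‖T ^ n‖ ≤ w n` for all `n ≥ 1` which map
functions with values in `C` to such functions. With the strong* operator topology it is a Polish space, and a typical element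
has nontrivial closed hyperinvariant subspaces, which even come arbitrarily close to every vector.

For `Y = ℂ` and `C = [0, ∞)` these are the positive operators of `L_p(0, 1)` with a prescribed
growth of the powers: for instance the power bounded positive operators with a given constant, or
positive quasinilpotent operators with an arbitrary prescribed decay of the powers. The typical
element of this space is not typical in the space of all operators with the same growth. For `Y`
the complexification of a reflexive Banach lattice and `C` its positive cone one gets the positive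
operators of `L_p([0, 1]; Y)`; for a real form `C` of `Y` the operators which come from the real
space.

Proof. As for `TypicalPowerGrowth`: all the embeddings and projections which are used there (of
halves of dyadic intervals, and of copies of the space on small intervals) preserve the cone, the
weights of the shifts are positive, and the operators which preserve the cone are closed under
sums, products and strong limits.
-/

set_option autoImplicit false
open TopologicalSpace MeasureTheory
open scoped ENNReal

namespace Pool.Agent.Results.MP_f981b0_an.TypicalPositivePowerGrowth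

variable {X : Type} [NormedAddCommGroup X] [NormedSpace ℂ X]

/-- `X` is reflexive: the canonical map to the second dual is surjective. -/
def IsReflexive (X : Type) [NormedAddCommGroup X] [NormedSpace ℂ X] : Prop :=
  Function.Surjective (NormedSpace.inclusionInDoubleDual ℂ X)

/-- `C` is a closed convex cone in `Y` with `C ≠ {0}` and `C ≠ Y`. -/
structure IsCone {Y : Type} [NormedAddCommGroup Y] [NormedSpace ℂ Y] (C : Set Y) : Prop where
  closed : IsClosed C
  zero : (0 : Y) ∈ C
  add : ∀ a ∈ C, ∀ b ∈ C, a + b ∈ C
  smul : ∀ r : ℝ, 0 ≤ r → ∀ a ∈ C, (r : ℂ) • a ∈ C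
  ne_zero : C ≠ {0}
  ne_univ : C ≠ Set.univ

/-- The operators whose powers satisfy `‖T ^ n‖ ≤ w n` for all `n ≥ 1`, and which map the functions
with values in `C` to functions with values in `C`; here `X` is identified with a space of
functions on `[0, 1]` by the map `e`. -/
def ConeGrowth {Y : Type} [NormedAddCommGroup Y] [NormedSpace ℂ Y] {p : ℝ≥0∞} [Fact (1 ≤ p)]
    (e : X ≃ₗᵢ[ℂ] Lp Y p (volume.restrict (Set.Icc (0 : ℝ) 1))) (C : Set Y) (w : ℕ → ℝ) :
    Set (X →L[ℂ] X) :=
  {T | (∀ n, 0 < n → ‖T ^ n‖ ≤ w n) ∧
    ∀ x, (∀ᵐ t ∂(volume.restrict (Set.Icc (0 : ℝ) 1)), e x t ∈ C) →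
      ∀ᵐ t ∂(volume.restrict (Set.Icc (0 : ℝ) 1)), e (T x) t ∈ C}

/-- The strong* operator topology on a set of operators: pointwise convergence of the operators
and of their adjoints. -/
@[reducible] noncomputable def SOTStar (C : Set (X →L[ℂ] X)) : TopologicalSpace C :=
  TopologicalSpace.induced (fun T : C => ((fun x : X => (T : X →L[ℂ] X) x),
    (fun y : StrongDual ℂ X => y.comp (T : X →L[ℂ] X)))) instTopologicalSpaceProd

/-- Arbitrarily close to every vector there is a vector which lies in a closed subspace, neither
`{0}` nor the whole space, which is invariant under all bounded operators commuting with `T`. -/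
def DenselyHyperinvariant (T : X →L[ℂ] X) : Prop :=
  ∀ (x₀ : X) (ε : ℝ), 0 < ε → ∃ M : Submodule ℂ X, IsClosed (M : Set X) ∧ M ≠ ⊥ ∧ M ≠ ⊤ ∧
    (∀ S : X →L[ℂ] X, S * T = T * S → ∀ v ∈ M, S v ∈ M) ∧ ∃ x ∈ M, ‖x - x₀‖ < ε

/-- **Typical positive operators with prescribed power growth on the separable reflexive spaces
`L_p([0, 1]; Y)`, `1 < p < ∞`, have nontrivial closed hyperinvariant subspaces**, for the strong*
operator topology, for positivity with respect to a closed convex cone in `Y`, and for every
sequence `w` of positive numbers. The space of these operators is completely metrizable. -/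
theorem result [CompleteSpace X] [SeparableSpace X] [Nontrivial X] (hX : IsReflexive X)
    (p : ℝ≥0∞) [Fact (1 ≤ p)] (hp1 : 1 < p) (hp : p ≠ ∞)
    (Y : Type) [NormedAddCommGroup Y] [NormedSpace ℂ Y] [CompleteSpace Y]
    (C : Set Y) (hC : IsCone C)
    (e : X ≃ₗᵢ[ℂ] Lp Y p (volume.restrict (Set.Icc (0 : ℝ) 1)))
    (w : ℕ → ℝ) (hw : ∀ n, 0 < w n) :
    (ConeGrowth e C w).Nonempty ∧
      @IsCompletelyMetrizableSpace _ (SOTStar (ConeGrowth e C w)) ∧
      @BaireSpace _ (SOTStar (ConeGrowth e C w)) ∧
      {T : ConeGrowth e C w | DenselyHyperinvariant (T : X →L[ℂ] X)} ∈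
        @residual _ (SOTStar (ConeGrowth e C w)) :=
  Run7.h667.NG.typ_cone hX hp1 hp ⟨hC.closed, hC.zero, hC.add, hC.smul⟩ rfl e hw
    (ConeGrowth e C w) rfl (SOTStar (ConeGrowth e C w)) rfl

end Pool.Agent.Results.MP_f981b0_an.TypicalPositivePowerGrowth
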