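import Pool.Agent.Run7.h667.NG.Fin

/-!
# MP_f981b0_an: hyperinvariant subspaces of typical operators with prescribed power growth

Let `X` be a separable reflexive complex Banach space which is isometric to `L_p([0, 1]; Y)` for
some Banach space `Y`, where `1 < p < ∞`. (Examples are `L_p(0, 1)`, `L_p([0, 1]; Y)` for every
separable reflexive `Y`, and for `p = 2` every separable infinite-dimensional Hilbert space.) Let
`w 1, w 2, …` be *any* positive numbers, and let `PowerGrowth w` be the set of the operators `T`
with `‖T ^ n‖ ≤ w n` for all `n ≥ 1`. With the strong* operator topology it is a Polish space, and a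
typical element has nontrivial closed hyperinvariant subspaces, which even come arbitrarily close
to every vector. For constant `w` these are the power bounded operators with a given constant, for
`w n = C n ^ k` the operators with polynomial growth of the powers, and if `w n ^ (1 / n)` tends to
`0` they are quasinilpotent operators, with a decay of the powers that can be prescribed
arbitrarily.

Proof. `L_p([0, 1]; Y)` is the `ℓ_p` sum of `2 ^ r` copies of itself in many ways; for the splitting
of every dyadic interval of a fine level into `2 ^ r` pieces let `U_j`, `V_j` be the embeddings and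
the projections. The nilpotent operator `c ∑ U_(j+1) T V_j` is close to `T` in the strong* topology,
because the mean `2 ^ (-r/p) ∑ U_j` is close to the identity (as is the adjoint mean, by
reflexivity), and the norms of its powers are at most `c ^ n ‖T ^ n‖`. So nilpotent operators `A`
with `‖A ^ n‖ < w n` are dense. Move `A` away from the last piece of `[0, 1]`, put `m` copies of it
there, and couple them by a weighted shift with small weights: `Z = A ⊗ 1 + 1 ⊗ J`. Then `Z` is
nilpotent, and the small weights keep `‖Z ^ n‖ ≤ w n` for the finitely many relevant `n`. Let
`T i j` be the blocks of a contraction commuting with `Z`; they satisfy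
`[A, T i j] = w_j T i (j+1) - w_(i-1) T (i-1) j`. As the derivation `X ↦ A X - X A` is nilpotent,
the (normalised) diagonals of the block matrix are polynomial sequences of bounded degree; being
bounded they are nearly constant if the chain of copies is long. So the main diagonal is nearly
constant (with entries nearly commuting with `A`), and the other diagonals nearly vanish, if the
first weights are much smaller than the last ones. As in the case of contractions a representation
of the functional `S ↦ y (S x)` on the commutant of `A` then gives a pair close to `x`, `y` which is
nearly annihilated by the commutant of `Z`, and a Baire category argument finishes the proof.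
-/

set_option autoImplicit false
open TopologicalSpace MeasureTheory
open scoped ENNReal

namespace Pool.Agent.Results.MP_f981b0_an.TypicalPowerGrowth

variable (X : Type) [NormedAddCommGroup X] [NormedSpace ℂ X]

/-- `X` is reflexive: the canonical map to the second dual is surjective. -/
def IsReflexive : Prop := Function.Surjective (NormedSpace.inclusionInDoubleDual ℂ X)

/-- The operators whose powers satisfy `‖T ^ n‖ ≤ w n` for all `n ≥ 1`. -/
def PowerGrowth (w : ℕ → ℝ) : Set (X →L[ℂ] X) := {T | ∀ n, 0 < n → ‖T ^ n‖ ≤ w n}

/-- The strong* operator topology on this set: pointwise convergence of the operators and of their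
adjoints. -/
@[reducible] noncomputable def SOTStar (w : ℕ → ℝ) : TopologicalSpace (PowerGrowth X w) :=
  TopologicalSpace.induced (fun T : PowerGrowth X w => ((fun x : X => (T : X →L[ℂ] X) x),
    (fun y : StrongDual ℂ X => y.comp (T : X →L[ℂ] X)))) instTopologicalSpaceProd

variable {X}

/-- Arbitrarily close to every vector there is a vector which lies in a closed subspace, neither
`{0}` nor the whole space, which is invariant under all bounded operators commuting with `T`. -/
def DenselyHyperinvariant (T : X →L[ℂ] X) : Prop :=
  ∀ (x₀ : X) (ε : ℝ), 0 < ε → ∃ M : Submodule ℂ X, IsClosed (M : Set X) ∧ M ≠ ⊥ ∧ M ≠ ⊤ ∧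
    (∀ S : X →L[ℂ] X, S * T = T * S → ∀ v ∈ M, S v ∈ M) ∧ ∃ x ∈ M, ‖x - x₀‖ < ε

/-- **Typical operators with prescribed power growth on the separable reflexive spaces
`L_p([0, 1]; Y)`, `1 < p < ∞`, have nontrivial closed hyperinvariant subspaces**, for the strong*
operator topology and for every sequence `w` of positive numbers. The space of these operators is
completely metrizable. -/
theorem result [CompleteSpace X] [SeparableSpace X] [Nontrivial X] (hX : IsReflexive X)
    (p : ℝ≥0∞) [Fact (1 ≤ p)] (hp1 : 1 < p) (hp : p ≠ ∞)
    (Y : Type) [NormedAddCommGroup Y] [NormedSpace ℂ Y] [CompleteSpace Y]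
    (e : X ≃ₗᵢ[ℂ] Lp Y p (volume.restrict (Set.Icc (0 : ℝ) 1)))
    (w : ℕ → ℝ) (hw : ∀ n, 0 < w n) :
    (PowerGrowth X w).Nonempty ∧ @IsCompletelyMetrizableSpace _ (SOTStar X w) ∧
      @BaireSpace _ (SOTStar X w) ∧
      {T : PowerGrowth X w | DenselyHyperinvariant (T : X →L[ℂ] X)} ∈
        @residual _ (SOTStar X w) :=
  Run7.h667.NG.typ_LpY hX hp1 hp e hw (PowerGrowth X w) rfl (SOTStar X w) rfl

end Pool.Agent.Results.MP_f981b0_an.TypicalPowerGrowth
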